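import Mathlib
import Pool.Agent.H26.RG0

set_option autoImplicit false

open Filter Topology
open scoped ComplexOrder ENNReal

namespace Pool.Agent.Results.MP_b39683_an.Counterexample

open H26 RG0

def Amenable (G : Type) [Group G] : Prop :=
  ∃ m : Set G → ℝ, m Set.univ = 1 ∧ (∀ A, 0 ≤ m A) ∧ (∀ A B, Disjoint A B → m (A ∪ B) = m A + m B) ∧
    ∀ g A, m ((g * ·) '' A) = m A

abbrev L2 (G : Type) : Type := lp (fun _ : G => ℂ) 2

def Comm {G : Type} [Group G] (T : L2 G → L2 G) : Prop :=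
  ∀ (t : G) (f h : L2 G), (∀ s, h s = f (s * t)) → ∀ s, T h s = T f (s * t)

lemma not_am (A : Type) [Group A] : ¬ Amenable (Equiv.Perm ℕ × A) := fun ⟨m, h1, _, h3, h4⟩ => by
  classical
  have key : ∀ p q : ℕ → Prop, Infinite {n // p n} → Infinite {n // ¬ p n} → Infinite {n // q n} →
      Infinite {n // ¬ q n} → m {g | p (g.1 0)} = m {g | q (g.1 0)} := fun p q _ _ _ _ => by
    obtain ⟨e⟩ : Nonempty ({n // p n} ≃ {n // q n}) := nonempty_equiv_of_countable
    obtain ⟨e'⟩ : Nonempty ({n // ¬ p n} ≃ {n // ¬ q n}) := nonempty_equiv_of_countable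
    have h : ∀ n, q (e.subtypeCongr e' n) ↔ p n := fun n => by
      by_cases h : p n
      · simpa [Equiv.subtypeCongr, h] using (e ⟨n, h⟩).2
      · simpa [Equiv.subtypeCongr, h] using (e' ⟨n, h⟩).2
    rw [← h4 (e.subtypeCongr e', 1)⁻¹ {g | q (g.1 0)}, Set.image_mul_left, inv_inv]
    exact congrArg m (Set.ext fun g => (h _).symm)
  have inf : ∀ (p : ℕ → Prop) (r : ℕ), (∀ n, p (3 * n + r)) → Infinite {n // p n} := fun p r h =>
    .of_injective (fun n => ⟨_, h n⟩) fun a b h => by simpa using h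
  have k : ∀ p : ℕ → Prop, ∀ r s, (∀ n, p (3 * n + r)) → (∀ n, ¬ p (3 * n + s)) →
      m {g | p (g.1 0)} = m {g | g.1 0 % 3 = 0} := fun p r s a b => key p (· % 3 = 0) (inf _ r a) (inf _ s b)
    (inf _ 0 (by omega)) (inf _ 1 (by omega))
  have a1 := h3 {g | g.1 0 % 3 = 0} {g | g.1 0 % 3 = 1} (Set.disjoint_left.2 fun g a b => by
    simp only [Set.mem_setOf] at a b; omega)
  have a2 := h3 {g | g.1 0 % 3 = 2} {g | g.1 0 % 3 ≠ 2} disjoint_compl_right
  rw [show {g : Equiv.Perm ℕ × A | g.1 0 % 3 = 0} ∪ {g | g.1 0 % 3 = 1} = {g | g.1 0 % 3 ≠ 2} from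
    Set.ext fun g => by simp only [Set.mem_union, Set.mem_setOf]; omega] at a1
  rw [show {g : Equiv.Perm ℕ × A | g.1 0 % 3 = 2} ∪ {g | g.1 0 % 3 ≠ 2} = Set.univ from
    Set.union_compl_self _] at a2
  linarith [k (· % 3 = 1) 1 0 (by omega) (by omega), k (· % 3 = 2) 2 0 (by omega) (by omega),
    k (· % 3 ≠ 2) 0 2 (by omega) (by omega)]

abbrev G : Type := Equiv.Perm ℕ × (ℕ → ℤˣ × ℤˣ)

noncomputable def lam (t : G) : L2 G →L[ℂ] L2 G :=
  (re 2 (by simp) (Equiv.mulLeft t)).toContinuousLinearMap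

noncomputable def rho (t : G) : L2 G →L[ℂ] L2 G :=
  (re 2 (by simp) (Equiv.mulRight t)).toContinuousLinearMap

lemma lam_norm (t : G) (f : L2 G) : ‖lam t f‖ = ‖f‖ := LinearIsometry.norm_map _ f

lemma lam_apply (t : G) (f : L2 G) (s : G) : lam t f s = f (t * s) := rfl

lemma lam_rho (t r : G) : Commute (rho r) (lam t) :=
  ContinuousLinearMap.ext fun f => lp.ext (funext fun s => congrArg f (mul_assoc t s r).symm)

lemma four (a b : G) (h1 : a * a = 1) (h2 : a * b = b * a) (f : L2 G) :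
    ‖f + lam a f + (lam b f - lam b (lam a f))‖ = 2 * ‖f‖ := by
  have e1 : ∀ g, lam a (lam a g) = g := fun g => lp.ext (funext fun s => by
    rw [lam_apply, lam_apply, ← mul_assoc, h1, one_mul])
  have e2 : ∀ g, lam a (lam b g) = lam b (lam a g) := fun g => lp.ext (funext fun s => by
    simp only [lam_apply, ← mul_assoc, h2])
  have e3 := lam_norm a (f + lam a f + (lam b f - lam b (lam a f)))
  rw [map_add, map_add, map_sub, e1, e2, e2, e1, add_comm _ f, ← neg_sub (lam b f), ← sub_eq_add_neg] at e3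
  have e4 := parallelogram_law_with_norm ℂ (f + lam a f) (lam b f - lam b (lam a f))
  have e5 := parallelogram_law_with_norm ℂ f (lam a f)
  rw [e3, ← map_sub, lam_norm] at e4
  rw [lam_norm] at e5
  rw [← map_sub]
  exact (pow_left_inj₀ (norm_nonneg _) (by positivity) two_ne_zero).1 (by linarith)

def w (n : ℕ) (x : G) : Prop := x.1 = 1 ∧ ∀ i ≥ n, x.2 i = 1

lemma w_step (n : ℕ) (v : ℤˣ × ℤˣ) (x : G) :
    w n ((1, Pi.mulSingle n v) * x) ↔ w (n + 1) x ∧ v * x.2 n = 1 := by
  simp only [w, Prod.fst_mul, one_mul, Prod.snd_mul, Pi.mul_apply, and_assoc]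
  refine and_congr_right fun _ => ⟨fun h => ⟨fun i hi => by
    simpa [Pi.mulSingle_eq_of_ne (show i ≠ n by omega)] using h i (by omega), by simpa using h n le_rfl⟩,
    fun h i hi => ?_⟩
  rcases hi.eq_or_lt with rfl | hi
  exacts [by simpa using h.2, by rw [Pi.mulSingle_eq_of_ne hi.ne', one_mul, h.1 i hi]]

open Classical in
lemma flat (n : ℕ) : ∃ V : L2 G →L[ℂ] L2 G, (∀ f, ‖V f‖ ≤ ‖f‖) ∧ (∀ t, Commute (rho t) V) ∧
    ∀ x, ‖V (lp.single 2 1 1) x‖ = if w n x then (1 / 2) ^ n else 0 := by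
  induction n with
  | zero =>
    refine ⟨1, fun _ => le_rfl, fun _ => .one_right _, fun x => ?_⟩
    have : w 0 x ↔ x = 1 := by simp [w, Prod.ext_iff, funext_iff]
    simp only [this, ContinuousLinearMap.one_apply, lp.single_apply, Pi.single_apply]
    split_ifs <;> simp
  | succ n ih =>
    obtain ⟨V, h1, h2, h3⟩ := ih
    let a : G := (1, Pi.mulSingle n (-1, 1))
    let b : G := (1, Pi.mulSingle n (1, -1))
    refine ⟨(1 / 2 : ℂ) • (1 + lam a + (lam b - lam b * lam a)) * V, fun f => ?_, fun t => ((((Commute.one_right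
      _).add_right (lam_rho a t)).add_right ((lam_rho b t).sub_right ((lam_rho b t).mul_right
        (lam_rho a t)))).smul_right _).mul_right (h2 t), fun x => ?_⟩
    · change ‖(1 / 2 : ℂ) • (V f + lam a (V f) + (lam b (V f) - lam b (lam a (V f))))‖ ≤ _
      rw [norm_smul, four a b (by simp [a, ← Pi.mulSingle_mul]) (by simp [a, b, mul_comm])]
      simpa using h1 f
    · have e : (a * (b * x)) = (1, Pi.mulSingle n (-1, -1)) * x := by
        simp [a, b, ← mul_assoc, ← Pi.mulSingle_mul]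
      have k0 := h3 ((1, Pi.mulSingle n 1) * x)
      have k1 := h3 (a * x)
      have k2 := h3 (b * x)
      have k3 := h3 (a * (b * x))
      rw [e] at k3
      simp only [a, b, w_step] at k0 k1 k2 k3
      rw [← e] at k3
      rw [Pi.mulSingle_one, Prod.mk_one_one, one_mul] at k0
      change ‖1 / 2 * (V _ x + V _ (a * x) + (V _ (b * x) - V _ (a * (b * x))))‖ = _
      rw [norm_mul, pow_succ']
      change ‖V _ (a * x)‖ = _ at k1
      change ‖V _ (b * x)‖ = _ at k2
      change ‖V _ (a * (b * x))‖ = _ at k3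
      generalize V _ x = p0, V _ (a * x) = p1, V _ (b * x) = p2, V _ (a * (b * x)) = p3, x.2 n = v,
        w (n + 1) x = P at k0 k1 k2 k3
      obtain ⟨v1, v2⟩ := v
      clear h1 h2 h3 e
      by_cases h : P
      · rcases Int.units_eq_one_or v1 with rfl | rfl <;> rcases Int.units_eq_one_or v2 with rfl | rfl <;>
          simp_all
      · simp_all

theorem result : ∃ (G : Type) (_ : Group G), ¬ Amenable G ∧
    ∃ T : L2 G →L[ℂ] L2 G, Comm T ∧ ¬ Regular (fun f s => f s) T := by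
  classical
  choose V h1 h2 h3 using flat
  have h4 : Summable fun n => ((2 / 3 : ℂ) ^ n) • (lam (Equiv.swap 0 n, 1) * V n) :=
    .of_norm_bounded (summable_geometric_of_lt_one (r := 2 / 3) (by norm_num) (by norm_num)) fun n => by
      refine ContinuousLinearMap.opNorm_le_bound _ (by positivity) fun f => ?_
      change ‖(2 / 3 : ℂ) ^ n • lam _ (V n f)‖ ≤ _
      rw [norm_smul, lam_norm, norm_pow, show ‖(2 / 3 : ℂ)‖ = 2 / 3 by simp]
      exact mul_le_mul_of_nonneg_left (h1 n f) (by positivity)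
  generalize hT : ∑' n, ((2 / 3 : ℂ) ^ n) • (lam (Equiv.swap 0 n, 1) * V n) = T
  have h5 : Comm T := fun t f h H s => by
    have := DFunLike.congr_fun (hT ▸ Commute.tsum_right (rho t) fun n =>
      ((lam_rho _ t).mul_right (h2 n t)).smul_right ((2 / 3 : ℂ) ^ n)).eq f
    rw [show h = rho t f from lp.ext (funext H)]
    exact (congrArg (· s) this).symm
  refine ⟨G, inferInstance, not_am _, T, h5, fun H => ?_⟩
  obtain ⟨C, hC⟩ := reg_bdd (lp.evalCLM ℂ (fun _ : G => ℂ) 2) (fun f g h => lp.norm_mono (by simp) h) H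
  obtain ⟨n, hn⟩ := pow_unbounded_of_one_lt C (show (1 : ℝ) < 4 / 3 by norm_num)
  have h6 : ∀ x, w n ((Equiv.swap 0 n, 1) * x) → ‖T (lp.single 2 1 1) x‖ = (2 / 3) ^ n * (1 / 2) ^ n :=
    fun x hx => by
      have := ((hT ▸ h4.hasSum).mapL (ContinuousLinearMap.apply ℂ _ (lp.single 2 1 1))).mapL
        (lp.evalCLM ℂ _ 2 x)
      refine (congrArg norm (this.unique (hasSum_single n fun m hm => ?_))).trans ?_
      · refine mul_eq_zero_of_right _ (norm_eq_zero.1 ((h3 m _).trans (if_neg fun h => hm ?_)))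
        simpa using DFunLike.congr_fun (mul_right_cancel (h.1.trans hx.1.symm)) 0
      · exact (norm_mul _ _).trans (congrArg₂ _ (by simp) ((h3 n _).trans (if_pos hx)))
  let X : Finset G := Finset.univ.map ⟨fun y : Fin n → ℤˣ × ℤˣ => (1, Function.extend Fin.val y 1),
    fun a b h => Function.extend_injective Fin.val_injective _ (congrArg Prod.snd h)⟩
  have x1 : ∀ x ∈ X, w n x := fun x hx => by
    obtain ⟨y, -, rfl⟩ := Finset.mem_map.1 hx
    exact ⟨rfl, fun i hi => Function.extend_apply' _ _ _ fun ⟨j, hj⟩ => by omega⟩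
  have x2 : X.card = 4 ^ n := by simp [X]
  have x3 : ∀ s, (∑ x ∈ X, lp.single 2 x 1 : L2 G) s = if s ∈ X then 1 else 0 := fun s => by
    rw [lp.coeFn_sum, Finset.sum_apply]
    simp [Pi.single_apply]
  obtain ⟨x, hx⟩ := Finset.card_pos.1 (x2 ▸ pow_pos four_pos n)
  have := hC _ X (lp.single 2 · 1) ((4 / 3 : ℂ) ^ n • lam (Equiv.swap 0 n, 1) (∑ x ∈ X, lp.single 2 x 1))
    (fun x s => by
      change 0 ≤ (lp.single 2 x 1 : L2 G) s
      rw [lp.single_apply, Pi.single_apply]
      split_ifs <;> simp) fun s => by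
    change ‖_ * (∑ x ∈ X, lp.single 2 x 1 : L2 G) ((Equiv.swap 0 n, 1) * s)‖ ≤ ∑ x ∈ X, ‖T _ s‖
    rw [x3]
    split_ifs with h
    · rw [Finset.sum_congr rfl fun x hx => (congrArg norm (h5 x⁻¹ (lp.single 2 1 1) _ (fun s => by
        simp [Pi.single_apply, mul_inv_eq_one]) s)).trans (h6 _ (by
          rw [← mul_assoc]
          exact ⟨by rw [Prod.fst_mul, (x1 _ h).1, Prod.fst_inv, (x1 x hx).1, inv_one, one_mul],
            fun i hi => by rw [Prod.snd_mul, Pi.mul_apply, (x1 _ h).2 i hi, Prod.snd_inv, Pi.inv_apply,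
              (x1 x hx).2 i hi, inv_one, one_mul]⟩)), Finset.sum_const, x2, nsmul_eq_mul, Nat.cast_pow,
        ← mul_pow, ← mul_pow, mul_one, norm_pow]
      norm_num
    · simp only [mul_zero, norm_zero]
      positivity
  rw [norm_smul, lam_norm, norm_pow] at this
  refine hn.not_ge (le_trans (by norm_num) (le_of_mul_le_mul_right this (norm_pos_iff.2 fun h => ?_)))
  simpa [h, hx] using x3 x

end Pool.Agent.Results.MP_b39683_an.Counterexample
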